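import Pool.Agent.T6.H21.ND.Main

/-!
# The noncommutative standard conjecture D for `perf(X_1 × ⋯ × X_r) ⊗ 𝒜`, for an ARBITRARY smooth proper dg category `𝒜` over
`ℂ` and fibres `X_i`, over `ℚ`, of the hypergeometric families of Calabi–Yau varieties

Let `β_1, …, β_m`, `m ≥ 2`, be rational numbers in `(0, 1)`, `θ = z d/dz`. The hypergeometric operator
`θ^(2m) - z ∏_j (θ + β_j) (θ + 1 - β_j)` underlies a variation of Hodge structure of weight `2m - 1` and rank `2m` with all
Hodge numbers one. For `m = 2`, `β = (1/5, 2/5)` it is the variation of the third cohomology of the mirror quintic threefolds;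
for `β_j = j / (2m + 1)` that of the middle cohomology `V_t` of the mirrors `X_t` (a family of Calabi–Yau varieties of
dimension `2m - 1` over `ℚ`) of the Calabi–Yau hypersurfaces of degree `2m + 1`; the other cohomology of `X_t` is spanned by
classes of algebraic cycles.

Let `𝒜` be an ARBITRARY smooth proper dg category over `ℂ` whose noncommutative motive is a direct summand of that of a smooth
proper variety (for instance an admissible subcategory of `D^perf(Z)`). Of `𝒜` we use the rational topological K-theory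
`K^top_0(𝒜)_ℚ ⊕ K^top_1(𝒜)_ℚ = ℚ^d`, the decomposition of its complexification (the periodic cyclic homology) into the
Hochschild homology groups `HH_δ(𝒜)`, which are in `K^top_0` for even and in `K^top_1` for odd `δ` (`IsHochschild`), and the
Euler form `B`. Let `alg` be the image of `K_0(𝒜)_ℚ`, that is `K_0(𝒜)_ℚ` modulo homological equivalence. The numerically
trivial classes are the elements of the kernel of the form on `alg` (`IsNumTrivial`), and the noncommutative standard
conjecture D for `𝒜` says that they are zero.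

Let `X = X_(c 1) × ⋯ × X_(c r)`, any `r` and `c` (repetitions are allowed). We prove (`Transfers`):

* `K_0(perf(X) ⊗ 𝒜)_ℚ = T ⊗ K_0(𝒜)_ℚ` modulo homological equivalence, where `T` is the span of the classes on `X` which are
  products of algebraic classes on factors `X_i` and of the polarisations in `V_i ⊗ V_i` (Künneth components of the diagonal)
  on pairs of equal factors `X_i`;
* the same for the numerically trivial classes: those of `perf(X) ⊗ 𝒜` are `T ⊗` those of `𝒜`;
* **the noncommutative standard conjecture D for `perf(X) ⊗ 𝒜` is equivalent to the one for `𝒜`.** No case of the Hodge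
  conjecture or of the other standard conjectures is assumed for `𝒜`. For instance D is true for `perf(X) ⊗ 𝒜` for all
  components `𝒜` of `D^perf(Z)`, `dim Z ≤ 4` (D is true for `Z` by Lieberman; but the standard conjecture B for `Z`, which
  would imply D for `X × Z`, is not known).

This holds (1) for all sufficiently large `G`, all `B`, `t` with `(B + 2)^E ≤ t` (`E` depends only on `β`, `G`) and all
families of different fibres at the points `z = 1 / (t - G u)`, `1 ≤ u ≤ B`, for all `u` outside a set of at most `m + 2`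
elements (independent of `𝒜`) and a set of at most `d² / (m (2m + 1))` elements, `d` the rank of `K^top_*(𝒜)`; (2) for all but
at most `K T^(k - δ)`, `δ > 0`, of the `k`-tuples of fibres at the points `(1 / t_1, …, 1 / t_k)`, `t_i ≤ T`, where `δ`, `K`
depend only on `β`, `k`, `d`.

The properties of the classes of objects that are used are in `IsObjectClasses`: they are Hodge classes (in `HH_0`), products
of objects are objects, and for objects `v` of `perf(X)` and `t` of `perf(X) ⊗ 𝒜` the object `RHom(v, t)` is in `𝒜`. The proof: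
by the theorem on Hodge classes all classes are in `T ⊗ K^top_0(𝒜)_ℚ`. The polarisation is definite on the span of the pairing
tensors (in symplectic coordinates they are invariant under a compatible complex structure), so that the Euler form of `X` is
nondegenerate on `T`, and the functors `RHom(v, -)` with `v` in `T` pick out the coefficients.
-/

set_option autoImplicit false

open Pool.Agent.Results.MP_4e1cf2_ag.ArbitraryFactor (IsFibre RationalStructure)

namespace Pool.Agent.Results.MP_28af06_ag.HypergeometricFactors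

/-- `K^top_0(𝒜) ⊗ ℚ ⊕ K^top_1(𝒜) ⊗ ℚ = ℚ^d`, the basis vectors `b` with `K1 b` are in `K^top_1`, the others in `K^top_0`; the
complexification is the direct sum of the Hochschild homology groups `U δ = HH_δ(𝒜)`, which are in `K^top_0` for even `δ` and
in `K^top_1` for odd `δ`. -/
structure IsHochschild {d : ℕ} (K1 : Fin d → Prop) (U : ℤ → Submodule ℂ (Fin d → ℂ)) : Prop where
  internal : DirectSum.IsInternal U
  parity : ∀ δ, ∀ w ∈ U δ, ∀ b, w b ≠ 0 → (K1 b ↔ Odd δ)

/-- The rational topological K-theory of the fibre is `ℚ^s ⊕ V`, with the classes of algebraic cycles `ℚ^s` in `K^top_0` and the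
middle cohomology `V = ℚ^n` in `K^top_1`; `V p` is the part of type `(p, n - 1 - p)` of `V`, `p < n`, which has the Hochschild
degree `p - (n - 1 - p)`. The class `h` is in the part `HH_δ` of degree `δ`. -/
def IsDegree {s n : ℕ} (V : ℕ → Submodule ℂ (Fin n → ℂ)) (δ : ℤ) (h : Fin s ⊕ Fin n → ℂ) : Prop :=
  (∀ e, h (Sum.inl e) ≠ 0 → δ = 0) ∧
    ((∃ p : ℕ, p < n ∧ δ = 2 * (p : ℤ) - ((n : ℤ) - 1) ∧ (fun l => h (Sum.inr l)) ∈ V p) ∨ ∀ l, h (Sum.inr l) = 0)

/-- `HH_δ(perf(X) ⊗ 𝒜)`, `X = X_(c 1) × ⋯ × X_(c r)`: a class `f` is given by its coefficients `f J b` at the products of the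
basis classes `J x` of the factors `x = 1, …, r` and the basis class `b` of `𝒜`; the part of degree `δ` is spanned by the
products of classes of degrees `a x` and `q` with `∑ a x + q = δ`. -/
def HochschildDegree {r k s n d : ℕ} (V : Fin k → ℕ → Submodule ℂ (Fin n → ℂ)) (c : Fin r → Fin k)
    (U : ℤ → Submodule ℂ (Fin d → ℂ)) (δ : ℤ) : Submodule ℂ ((Fin r → Fin s ⊕ Fin n) → Fin d → ℂ) :=
  Submodule.span ℂ {f | ∃ (a : Fin r → ℤ) (h : Fin r → Fin s ⊕ Fin n → ℂ) (q : ℤ) (w : Fin d → ℂ),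
    (∀ x, IsDegree (V (c x)) (a x) (h x)) ∧ w ∈ U q ∧ ∑ x, a x + q = δ ∧ f = fun J b => (∏ x, h x (J x)) * w b}

/-- The coefficients of the polarisation tensor `A⁻¹` in `V ⊗ V`, up to a factor the Künneth component of the diagonal. -/
noncomputable def pairClass {s n : ℕ} (A : Matrix (Fin n) (Fin n) ℚ) : Fin s ⊕ Fin n → Fin s ⊕ Fin n → ℚ
  | Sum.inr l, Sum.inr l' => A⁻¹ l l'
  | _, _ => 0

open Classical in
/-- The class on `X` which is the product of the algebraic classes `α x` on the factors `x` outside of `I` and of the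
polarisation tensors on the pairs `(e (i, 0), e (i, 1))` into which the factors in `I` are divided. -/
noncomputable def productClass {r s n l : ℕ} (A : Matrix (Fin n) (Fin n) ℚ) (I : Set (Fin r)) (α : Fin r → Fin s → ℚ)
    (e : Fin l × Fin 2 ≃ I) : (Fin r → Fin s ⊕ Fin n) → ℚ := fun J =>
  (∏ x : {x // x ∉ I}, Sum.elim (α x) (fun _ => 0) (J x)) * ∏ i, pairClass A (J (e (i, 0))) (J (e (i, 1)))

/-- The span `T` of the product classes on `X`; the two factors of each pair have the same colour (are the same `X_i`). -/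
def ProductClasses {r k s n : ℕ} (A : Matrix (Fin n) (Fin n) ℚ) (c : Fin r → Fin k) :
    Submodule ℚ ((Fin r → Fin s ⊕ Fin n) → ℚ) :=
  Submodule.span ℚ {v | ∃ (I : Set (Fin r)) (α : Fin r → Fin s → ℚ) (l : ℕ) (e : Fin l × Fin 2 ≃ I),
    (∀ i, c (e (i, 0)) = c (e (i, 1))) ∧ v = productClass A I α e}

/-- `T ⊗ M`, for a set `M` of classes of `𝒜` -/
def Tensors {r k s n d : ℕ} (A : Matrix (Fin n) (Fin n) ℚ) (c : Fin r → Fin k) (M : Set (Fin d → ℚ)) :
    Submodule ℚ ((Fin r → Fin s ⊕ Fin n) → Fin d → ℚ) :=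
  Submodule.span ℚ {t | ∃ v ∈ ProductClasses A c, ∃ z ∈ M, t = fun J b => v J * z b}

/-- The Euler form of `X` on the products of the basis classes: on the factor `x` it is `E (c x)` on the algebraic classes and
the multiple `ρ (c x) A` of the polarisation on `V_(c x)`. The Künneth formula holds up to signs, since the classes in `K^top_1`
anticommute; the signs `ε I` depend on the set `I` of the factors with classes in `K^top_1`. -/
def eulerForm {r k s n : ℕ} (A : Matrix (Fin n) (Fin n) ℚ) (E : Fin k → Matrix (Fin s) (Fin s) ℚ) (ρ : Fin k → ℚ)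
    (ε : Set (Fin r) → ℤˣ) (c : Fin r → Fin k) (J J' : Fin r → Fin s ⊕ Fin n) : ℚ :=
  ((ε {x | (J x).isRight} : ℤ) : ℚ) * ∏ x, Matrix.fromBlocks (E (c x)) 0 0 (ρ (c x) • A) (J x) (J' x)

/-- `alg` and `algX` are the spans of the classes of the objects of `𝒜` and of `perf(X) ⊗ 𝒜` (`K_0` with rational coefficients
modulo homological equivalence): classes of objects are Hodge classes, i.e. of degree zero; the products of the classes in `T`
and of classes of objects of `𝒜` are in `algX`; for `v` in `T` and an object `t` of `perf(X) ⊗ 𝒜` the class of `RHom(v, t)`, the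
contraction of `t` with `v`, is in `alg`. -/
structure IsObjectClasses {r k s n d : ℕ} (A : Matrix (Fin n) (Fin n) ℚ) (V : Fin k → ℕ → Submodule ℂ (Fin n → ℂ))
    (c : Fin r → Fin k) (U : ℤ → Submodule ℂ (Fin d → ℂ)) (χ : (Fin r → Fin s ⊕ Fin n) → (Fin r → Fin s ⊕ Fin n) → ℚ)
    (alg : Submodule ℚ (Fin d → ℚ)) (algX : Submodule ℚ ((Fin r → Fin s ⊕ Fin n) → Fin d → ℚ)) : Prop where
  hodge : ∀ t ∈ algX, (fun J b => ((t J b : ℚ) : ℂ)) ∈ HochschildDegree V c U 0
  box : ∀ v ∈ ProductClasses A c, ∀ z ∈ alg, (fun J b => v J * z b) ∈ algX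
  hom : ∀ v ∈ ProductClasses A c, ∀ t ∈ algX, (fun b => ∑ J, ∑ J', χ J J' * v J * t J' b) ∈ alg

/-- `z` is a numerically trivial class of an object of `𝒜`: it is in the kernel of the Euler form `B` on `alg`. -/
def IsNumTrivial {d : ℕ} (B : Matrix (Fin d) (Fin d) ℚ) (alg : Submodule ℚ (Fin d → ℚ)) (z : Fin d → ℚ) : Prop :=
  z ∈ alg ∧ ∀ w ∈ alg, ∑ b, ∑ b', B b b' * z b * w b' = 0

/-- `t` is a numerically trivial class of an object of `perf(X) ⊗ 𝒜`: it is in the kernel of the Euler form `χ ⊗ B` on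
`algX`. -/
def IsNumTrivialProduct {r s n d : ℕ} (χ : (Fin r → Fin s ⊕ Fin n) → (Fin r → Fin s ⊕ Fin n) → ℚ)
    (B : Matrix (Fin d) (Fin d) ℚ) (algX : Submodule ℚ ((Fin r → Fin s ⊕ Fin n) → Fin d → ℚ))
    (t : (Fin r → Fin s ⊕ Fin n) → Fin d → ℚ) : Prop :=
  t ∈ algX ∧ ∀ t' ∈ algX, ∑ J, ∑ J', ∑ b, ∑ b', χ J J' * B b b' * t J b * t' J' b' = 0

/-- For all products `X = X_(c 1) × ⋯ × X_(c r)`: modulo homological equivalence `K_0(perf(X) ⊗ 𝒜)_ℚ = T ⊗ K_0(𝒜)_ℚ`, the same
for the numerically trivial classes, and the noncommutative standard conjecture D for `perf(X) ⊗ 𝒜` is equivalent to the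
noncommutative standard conjecture D for `𝒜`. (`s` is the dimension of the space of the algebraic classes on `X_i`, the Euler
form on it is nondegenerate.) -/
def Transfers {k n d : ℕ} (A : Matrix (Fin n) (Fin n) ℚ) (V : Fin k → ℕ → Submodule ℂ (Fin n → ℂ))
    (U : ℤ → Submodule ℂ (Fin d → ℂ)) : Prop :=
  ∀ (r s : ℕ) (c : Fin r → Fin k) (E : Fin k → Matrix (Fin s) (Fin s) ℚ) (ρ : Fin k → ℚ) (ε : Set (Fin r) → ℤˣ)
    (B : Matrix (Fin d) (Fin d) ℚ) (alg : Submodule ℚ (Fin d → ℚ))
    (algX : Submodule ℚ ((Fin r → Fin s ⊕ Fin n) → Fin d → ℚ)),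
    s ≠ 0 → (∀ i, (E i).det ≠ 0 ∧ ρ i ≠ 0) → IsObjectClasses A V c U (eulerForm A E ρ ε c) alg algX →
    algX = Tensors A c (alg : Set (Fin d → ℚ)) ∧
    (∀ t, IsNumTrivialProduct (eulerForm A E ρ ε c) B algX t ↔ t ∈ Tensors A c {z | IsNumTrivial B alg z}) ∧
    ((∀ t, IsNumTrivialProduct (eulerForm A E ρ ε c) B algX t → t = 0) ↔ ∀ z, IsNumTrivial B alg z → z = 0)

theorem pairClass_eq {s n : ℕ} (A : Matrix (Fin n) (Fin n) ℚ) :
    @pairClass s n A = Pool.Agent.T6.H21.ND.pr A := by
  funext a b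
  rcases a with a | a <;> rcases b with b | b <;> rfl

theorem productClasses_eq {r k s n : ℕ} (A : Matrix (Fin n) (Fin n) ℚ) (c : Fin r → Fin k) :
    (ProductClasses A c : Submodule ℚ ((Fin r → Fin s ⊕ Fin n) → ℚ)) = Pool.Agent.T6.H21.ND.TX A c := by
  unfold ProductClasses Pool.Agent.T6.H21.ND.TX productClass Pool.Agent.T6.H21.ND.pcl
  rw [pairClass_eq]

theorem one_mem {r k s n : ℕ} (A : Matrix (Fin n) (Fin n) ℚ) (c : Fin r → Fin k) (hs : s ≠ 0) :
    ∃ v ∈ (ProductClasses A c : Submodule ℚ ((Fin r → Fin s ⊕ Fin n) → ℚ)), ∃ J, v J = 1 := by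
  have hem : IsEmpty (∅ : Set (Fin r)) := ⟨fun x => x.2⟩
  have e : Fin 0 × Fin 2 ≃ (∅ : Set (Fin r)) := Equiv.equivOfIsEmpty _ _
  refine ⟨productClass A ∅ (fun _ _ => 1) e, Submodule.subset_span ⟨∅, fun _ _ => 1, 0, e, fun i => i.elim0, rfl⟩,
    fun _ => Sum.inl ⟨0, Nat.pos_of_ne_zero hs⟩, ?_⟩
  unfold productClass
  rw [Finset.univ_eq_empty (α := Fin 0), Finset.prod_empty, mul_one]
  exact Finset.prod_eq_one fun x _ => rfl

theorem transfers_of {m k d : ℕ} (hm : 1 ≤ m) {C : Matrix (Fin (2 * m)) (Fin (2 * m)) ℂ}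
    {A : Matrix (Fin (2 * m)) (Fin (2 * m)) ℚ} (hC : RationalStructure C A)
    {V : Fin k → ℕ → Submodule ℂ (Fin (2 * m) → ℂ)} {K1 : Fin d → Prop} {U : ℤ → Submodule ℂ (Fin d → ℂ)}
    (hU : IsHochschild K1 U)
    (hP : Pool.Agent.Results.MP_4e1cf2_ag.ArbitraryFactor.OnlyProducts A V (Pool.Agent.T6.H21.NC.mrg U)) :
    Transfers A V U := by
  intro r s c E ρ ε B alg algX hs hE hobj
  obtain ⟨h1, h2⟩ := Pool.Agent.T6.H21.ND.transfer hm hC (K1 := K1) ⟨hU.1, hU.2⟩ hP c E ρ (fun i => (hE i).1)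
    (fun i => (hE i).2) ε B (alg := alg) (algX := algX) hobj.hodge
    (fun v hv z hz => hobj.box v (by rw [productClasses_eq]; exact hv) z hz)
    (fun v hv t ht => hobj.hom v (by rw [productClasses_eq]; exact hv) t ht)
  have h3 : algX = Tensors A c (alg : Set (Fin d → ℚ)) := by
    rw [h1]
    unfold Tensors Pool.Agent.T6.H21.ND.Ten
    rw [productClasses_eq]
    rfl
  have h4 : ∀ t, IsNumTrivialProduct (eulerForm A E ρ ε c) B algX t ↔ t ∈ Tensors A c {z | IsNumTrivial B alg z} := by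
    intro t
    unfold Tensors
    rw [productClasses_eq]
    exact h2 t
  refine ⟨h3, h4, fun h5 z hz => ?_, fun h5 t ht => ?_⟩
  · obtain ⟨v, hv, J, hJ⟩ := one_mem (s := s) A c hs
    have h6 : (fun J b => v J * z b) = (0 : (Fin r → Fin s ⊕ Fin (2 * m)) → Fin d → ℚ) :=
      h5 _ ((h4 _).2 (Submodule.subset_span ⟨v, hv, z, hz, rfl⟩))
    funext b
    have h7 := congrFun (congrFun h6 J) b
    simp only [Pi.zero_apply] at h7
    rw [hJ, one_mul] at h7
    exact h7
  · have h6 : Tensors A c {z | IsNumTrivial B alg z} ≤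
        (⊥ : Submodule ℚ ((Fin r → Fin s ⊕ Fin (2 * m)) → Fin d → ℚ)) := by
      refine Submodule.span_le.2 ?_
      rintro t ⟨v, _, z, hz, rfl⟩
      rw [h5 z hz]
      show _ = _
      funext J b
      simp
    exact (Submodule.mem_bot ℚ).1 (h6 ((h4 t).1 ht))

/-- Let `m ≥ 2` and let `β_1, …, β_m` be rational numbers in `(0, 1)`.
(1) For all sufficiently large `G` there is `E` such that for all `B`, `t` with `(B + 2)^E ≤ t` and all rational structures
`(C, A)` there is a set `S` with at most `m + 2` elements such that for every `𝒜` (with `d` the rank of `K^top_*(𝒜)` and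
Hochschild homology given by the grading `U` of `ℂ^d`) there is a set `S'` with at most `d² / (m (2m + 1))` elements such that
for all `k`, all different `u_1, …, u_k ∈ {1, …, B}` outside `S ∪ S'` and all Hodge structures `V_1, …, V_k` on `ℚ^(2m)` which
are the fibres of the hypergeometric variation at the points `z = 1 / (t - G u_i)`, for all products `X = X_(c 1) × ⋯ × X_(c r)`
of these fibres `K_0(perf(X) ⊗ 𝒜)_ℚ = T ⊗ K_0(𝒜)_ℚ` modulo homological equivalence, the same is true for the numerically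
trivial classes, and the noncommutative standard conjectures D for `perf(X) ⊗ 𝒜` and for `𝒜` are equivalent.
(2) For all `k` and `d` there are `δ > 0` and `K` such that for all rational structures `(C, A)`, all `𝒜` with `K^top_*(𝒜)` of
rank `d` and all `T ≥ 1` this is true for all fibres at the points `z = 1 / t_i`, for all but at most `K T^(k - δ)` of the
tuples `(t_1, …, t_k)` of natural numbers `≤ T`. -/
theorem result {m : ℕ} (hm : 2 ≤ m) (β : Fin m → ℚ) (hβ : ∀ j, 0 < β j ∧ β j < 1) :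
    (∃ G0 : ℕ, ∀ G : ℕ, G0 ≤ G → ∃ E : ℕ, ∀ B t : ℕ, (B + 2) ^ E ≤ t → G * B < t ∧
      ∀ (C : Matrix (Fin (2 * m)) (Fin (2 * m)) ℂ) (A : Matrix (Fin (2 * m)) (Fin (2 * m)) ℚ), RationalStructure C A →
      ∃ S : Finset ℕ, S.card ≤ m + 2 ∧
      ∀ (d : ℕ) (K1 : Fin d → Prop) (U : ℤ → Submodule ℂ (Fin d → ℂ)), IsHochschild K1 U →
      ∃ S' : Finset ℕ, S'.card * (m * (2 * m + 1)) ≤ d ^ 2 ∧
      ∀ (k : ℕ) (u : Fin k → ℕ), Function.Injective u → (∀ i, 1 ≤ u i ∧ u i ≤ B ∧ u i ∉ S ∧ u i ∉ S') →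
      ∀ V : Fin k → ℕ → Submodule ℂ (Fin (2 * m) → ℂ), (∀ i, IsFibre β (t - G * u i) C A (V i)) → Transfers A V U) ∧
    ∀ k d : ℕ, ∃ δ K : ℝ, 0 < δ ∧
      ∀ (C : Matrix (Fin (2 * m)) (Fin (2 * m)) ℂ) (A : Matrix (Fin (2 * m)) (Fin (2 * m)) ℚ), RationalStructure C A →
      ∀ (K1 : Fin d → Prop) (U : ℤ → Submodule ℂ (Fin d → ℂ)), IsHochschild K1 U → ∀ T : ℕ, 1 ≤ T →
      ({τ : Fin k → ℕ | (∀ i, τ i ≤ T) ∧ ∃ V : Fin k → ℕ → Submodule ℂ (Fin (2 * m) → ℂ),
        (∀ i, IsFibre β (τ i) C A (V i)) ∧ ¬ Transfers A V U}.ncard : ℝ) ≤ K * (T : ℝ) ^ ((k : ℝ) - δ) := by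
  obtain ⟨⟨G0, h0⟩, h1⟩ := Pool.Agent.Results.MP_4e1cf2_ag.ArbitraryFactor.result hm β hβ
  refine ⟨⟨G0, fun G hG => ?_⟩, fun k d => ?_⟩
  · obtain ⟨E, hE⟩ := h0 G hG
    refine ⟨E, fun B t ht => ?_⟩
    obtain ⟨h2, h3⟩ := hE B t ht
    refine ⟨h2, fun C A hC => ?_⟩
    obtain ⟨S, hS, h4⟩ := h3 C A hC
    refine ⟨S, hS, fun d K1 U hU => ?_⟩
    obtain ⟨S', hS', h5⟩ := h4 d (Pool.Agent.T6.H21.NC.mrg U) (Pool.Agent.T6.H21.NC.mrg_internal hU.1)
    exact ⟨S', hS', fun k u hu huS V hV => transfers_of (by omega) hC hU (h5 k u hu huS V hV)⟩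
  · obtain ⟨δ, K, hδ, h2⟩ := h1 k d
    refine ⟨δ, K, hδ, fun C A hC K1 U hU T hT => ?_⟩
    refine le_trans ?_ (h2 C A hC (Pool.Agent.T6.H21.NC.mrg U) (Pool.Agent.T6.H21.NC.mrg_internal hU.1) T hT)
    refine Nat.cast_le.2 (Set.ncard_le_ncard ?_ ((Set.finite_Iic (fun _ => T : Fin k → ℕ)).subset fun τ hτ => fun i => hτ.1 i))
    rintro τ ⟨hτ, V, hV, hn⟩
    exact ⟨hτ, V, hV, fun h => hn (transfers_of (by omega) hC hU h)⟩

end Pool.Agent.Results.MP_28af06_ag.HypergeometricFactors
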