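import Pool.Agent.T6.H21.MP.Per

/-!
# The noncommutative standard conjecture D for `perf(A^n) ⊗ 𝒜`, for abelian varieties `A` with many algebraically independent
periods and ARBITRARY smooth proper dg categories `𝒜` over `ℂ`

Let `𝒜` be an arbitrary smooth proper dg category over `ℂ` whose noncommutative motive is a direct summand of that of a smooth
proper variety (for instance an admissible subcategory of `D^perf(Y)`). Of `𝒜` we use the rational topological K-theory
`K^top_0(𝒜)_ℚ ⊕ K^top_1(𝒜)_ℚ = ℚ^v` and the Hodge operator `V.z` on its complexification (periodic cyclic homology), the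
multiplication by `δ` on the Hochschild homology group `HH_δ(𝒜)`; together they are `V : Coh v`, with `V.dg b = 0` or `1` if the
basis vector `b` is in `K^top_0` or `K^top_1`. Moreover there is the Euler form `B`. The noncommutative Hodge filtration
`⨁_{m ≥ n} HH_m(𝒜)` is over the subfield `K` of `ℂ` (`HasFiltrationOver`) if its steps are spanned by vectors with coordinates in
`K` in the rational basis: the periods of `𝒜` are in `K`. For every `𝒜` this is true for a finitely generated field `K`.
Moreover `𝒜` is of CM type (`IsOfCMType`) if the Hodge operator commutes with its conjugates. Let `alg` be the image of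
`K_0(𝒜)_ℚ`, that is `K_0(𝒜)_ℚ` modulo homological equivalence. The numerically trivial classes are the elements of the kernel
of `B` on `alg` (`IsNumTrivial`), and the noncommutative standard conjecture D for `𝒜` says that they are zero.

Let `A` be the principally polarised abelian variety of dimension `g` with period matrix `Z`, and suppose that `D` of the
entries of `Z` are algebraically independent over `K`. (Every abelian variety is isogenous to a principally polarised one; `Z`
has `g (g + 1) / 2` different entries.) We prove: `A` is isogenous to a product `A₁ × A₂` of principally polarised abelian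
varieties with `dim A₂ = r` such that

* `r ≤ ρ` for every `ρ` with `g² / 4 < D` and `((ρ + 1)² / 2 + (g - ρ - 1) (g - ρ)) / 2 < D`; in particular **`r = 0`, and
  `A = A₁` up to isogeny, if `D > g (g - 1) / 2`**;
* for every `𝒜` which has periods in the field `K(Z₂)`, `Z₂` the period matrix of `A₂` (for instance `𝒜 = perf(A₂^m) ⊗ 𝒜'`,
  where the periods of `𝒜'` are in `K`), or which is of CM type, and **all powers** `A₁^n` (`TransfersOver`):
  * `K_0(perf(A₁^n) ⊗ 𝒜)_ℚ` modulo homological equivalence is the span of the products of products of divisor classes on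
    `A₁^n` and elements of `K_0(𝒜)_ℚ`;
  * the same for the numerically trivial classes;
  * **the noncommutative standard conjecture D for `perf(A₁^n) ⊗ 𝒜` is equivalent to the one for `𝒜`**;
* if `r = 0`, then this is true for the powers of `A` and all `𝒜` with periods in `K` or of CM type.

No case of the Hodge conjecture or of the standard conjectures is assumed for `𝒜`. For instance, D is true for `perf(A^n) ⊗ 𝒜`
for all components `𝒜` of `D^perf(Y)`, `dim Y ≤ 4`, with periods in `K`, if `D > g (g - 1) / 2` (D is true for `Y` by Lieberman;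
but the standard conjecture B for `Y`, which would imply D for `A^n × Y`, is not known).

The topological K-theory of `perf(A^n) ⊗ 𝒜` is the space `HAZ W v` of the alternating forms of all degrees on the rational
homology `W = (ℚ^g ⊕ ℚ^g)^n` of `A^n` with values in `ℚ^v`, and `IsHodgeOnProduct` says that a class is in `HH_0`: it extends
to a real multilinear form on the tangent space with values in `ℂ^v` which is killed by the sum of the Hodge operators of `A^n`
and `𝒜`. The Euler form `χ` is given on products by the one of `𝒜` and the integral over `A^n` (`IsEulerForm`). The properties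
of the classes of objects that are used are in `IsObjectClasses`: they are Hodge classes (in `HH_0`), products of objects are
objects, and for objects `v` of `perf(A^n)` and `t` of `perf(A^n) ⊗ 𝒜` the object `RHom(v, t)` is in `𝒜`.

The proof: many independent periods give derivations of `ℂ` over `K(Z₂)` which move the simple factors of `A₁`, so that the Lie
algebras generated by the Hodge operators of these factors are symplectic; and these derivations preserve the noncommutative
Hodge filtration of `𝒜`, so that the Hodge structures of `A₁^n` and `𝒜` are independent. So the Hodge classes are sums of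
products; the coefficients of a class of an object are found by integration against products of divisor classes, on which the
intersection pairing is perfect.
-/

set_option autoImplicit false

namespace Pool.Agent.Results.MP_28af06_ag.IndependentPeriods

open Module
open Pool.Agent.W437.HC (perPow)
open Pool.Agent.TH131.GHC (Coh HAZ cross)
open Pool.Agent.TH504.VY (divisorSpan IsHodgeOnProduct fibreIntegral)
open Pool.Agent.X311 (IsPeriodMatrix IsIsogenousToProduct periodField HasFiltrationOver IsOfCMType)

section

variable {W T : Type} [AddCommGroup W] [Module ℚ W] [AddCommGroup T] [Module ℂ T]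

/-- `B` is a bilinear form. -/
structure IsBilinear {M : Type} [AddCommGroup M] [Module ℚ M] (B : M → M → ℚ) : Prop where
  add_left : ∀ x y z, B (x + y) z = B x z + B y z
  smul_left : ∀ (a : ℚ) (x z : M), B (a • x) z = a * B x z
  add_right : ∀ x y z, B x (y + z) = B x y + B x z
  smul_right : ∀ (a : ℚ) (x z : M), B x (a • z) = a * B x z

/-- `χ` is the Euler form of `perf(A^n) ⊗ 𝒜`, for the homology `W` of `A^n` and the Euler form `B` of `𝒜`: for a product `β`
of divisor classes on `A^n` and a class `y` of `𝒜` the number `χ(F, β ⊗ y)` is up to sign `B(∫ F ∧ β, y)`, the integral over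
`A^n`. The integral is up to a factor `c ≠ 0` (which depends on `k`, `j` and the basis `e` of `W`, and also includes the sign)
the value `fibreIntegral e F β` of `F ∧ β` on `e`. -/
structure IsEulerForm (per : W →+ T) {v : ℕ} (B : (Fin v → ℚ) → (Fin v → ℚ) → ℚ) (χ : HAZ W v → HAZ W v → ℚ) : Prop where
  bilinear : IsBilinear B
  bilinearX : IsBilinear χ
  product : ∀ (k j : ℕ) (e : Basis (Fin k ⊕ Fin j) ℚ W), ∃ c : ℚ, c ≠ 0 ∧
    ∀ F : HAZ W v, ∀ β ∈ divisorSpan per j, ∀ y : Fin v → ℚ, χ F (cross β y) = c * B (fibreIntegral e F β) y

/-- `alg` and `algX` are the spans of the classes of the objects of `𝒜` and of `perf(A^n) ⊗ 𝒜` (`K_0` with rational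
coefficients modulo homological equivalence): classes of objects are Hodge classes; the products of products of divisor classes
on `A^n` and classes of objects of `𝒜` are in `algX`; for a product `β` of divisor classes on `A^n` and an object `F` of
`perf(A^n) ⊗ 𝒜` the class `∫ F ∧ β` is in `alg` (for `β` the Mukai vector of `v^∨` it is the class of `RHom(v, F)`). -/
structure IsObjectClasses (per : W →+ T) {v : ℕ} (V : Coh v) (alg : Submodule ℚ (Fin v → ℚ))
    (algX : Submodule ℚ (HAZ W v)) : Prop where
  hodge : ∀ F ∈ algX, IsHodgeOnProduct per V F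
  box : ∀ k, ∀ f ∈ divisorSpan per k, ∀ x ∈ alg, cross f x ∈ algX
  hom : ∀ F ∈ algX, ∀ (k j : ℕ) (e : Basis (Fin k ⊕ Fin j) ℚ W), ∀ β ∈ divisorSpan per j, fibreIntegral e F β ∈ alg

/-- The span of the products `f ⊗ x` of combinations `f` of products of divisor classes on `A^n` and elements `x` of `M`. -/
def Tensors (per : W →+ T) {v : ℕ} (M : Set (Fin v → ℚ)) : Submodule ℚ (HAZ W v) :=
  Submodule.span ℚ {G | ∃ (k : ℕ) (f : W [⋀^Fin k]→ₗ[ℚ] ℚ) (x : Fin v → ℚ), f ∈ divisorSpan per k ∧ x ∈ M ∧ G = cross f x}

/-- `x` is a numerically trivial class: it is an element of `alg` in the kernel of the Euler form. -/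
def IsNumTrivial {M : Type} [AddCommGroup M] [Module ℚ M] (B : M → M → ℚ) (alg : Submodule ℚ M) (x : M) : Prop :=
  x ∈ alg ∧ ∀ y ∈ alg, B x y = 0

end

/-- Modulo homological equivalence `K_0(perf(A^n) ⊗ 𝒜)_ℚ` is the span of the products of products of divisor classes and
elements of `K_0(𝒜)_ℚ`, the same for the numerically trivial classes, and the noncommutative standard conjecture D for
`perf(A^n) ⊗ 𝒜` is equivalent to the noncommutative standard conjecture D for `𝒜`. -/
structure Transfers {W T : Type} [AddCommGroup W] [Module ℚ W] [AddCommGroup T] [Module ℂ T] (per : W →+ T) {v : ℕ}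
    (B : (Fin v → ℚ) → (Fin v → ℚ) → ℚ) (χ : HAZ W v → HAZ W v → ℚ) (alg : Submodule ℚ (Fin v → ℚ))
    (algX : Submodule ℚ (HAZ W v)) : Prop where
  objects : algX = Tensors per (alg : Set (Fin v → ℚ))
  trivial : ∀ F, IsNumTrivial χ algX F ↔ F ∈ Tensors per {x | IsNumTrivial B alg x}
  D : (∀ F, IsNumTrivial χ algX F → F = 0) ↔ ∀ x, IsNumTrivial B alg x → x = 0

/-- For all powers `A^n` of the abelian variety with period matrix `Z` and all smooth proper dg categories `𝒜` of CM type or with
noncommutative Hodge filtration over `K`: modulo homological equivalence `K_0(perf(A^n) ⊗ 𝒜)_ℚ` and its numerically trivial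
classes are generated by products, and the noncommutative standard conjectures D for `perf(A^n) ⊗ 𝒜` and `𝒜` are equivalent. -/
def TransfersOver (K : Subfield ℂ) {g : ℕ} (Z : Matrix (Fin g) (Fin g) ℂ) : Prop :=
  ∀ (v : ℕ) (V : Coh v), IsOfCMType V ∨ HasFiltrationOver K V → ∀ n B χ alg algX, IsEulerForm (perPow Z n) B χ →
    IsObjectClasses (perPow Z n) V alg algX → Transfers (perPow Z n) B χ alg algX

/-- The abelian variety with period matrix `Z` is isogenous to the product of the ones with the period matrices `Z₁` and `Z₂`,
and the dimension `r` of the second factor is at most `ρ` for all `ρ` such that `g² / 4` and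
`((ρ + 1)² / 2 + (g - ρ - 1) (g - ρ)) / 2` are less than `D`, and `r = 0` if `D > g (g - 1) / 2`. -/
structure IsSplitting (D : ℕ) {g b r : ℕ} (Z : Matrix (Fin g) (Fin g) ℂ) (Z₁ : Matrix (Fin b) (Fin b) ℂ)
    (Z₂ : Matrix (Fin r) (Fin r) ℂ) : Prop where
  period₁ : IsPeriodMatrix Z₁
  period₂ : IsPeriodMatrix Z₂
  isogenous : IsIsogenousToProduct Z Z₁ Z₂
  dim : b + r = g
  small : ∀ ρ : ℕ, g ^ 2 < 4 * D → (ρ + 1) ^ 2 + 2 * (g - ρ - 1) * (g - ρ) < 4 * D → r ≤ ρ
  zero : g * (g - 1) < 2 * D → r = 0

/-- a bilinear form as a linear map -/
def IsBilinear.lin {M : Type} [AddCommGroup M] [Module ℚ M] {B : M → M → ℚ} (h : IsBilinear B) : M →ₗ[ℚ] M →ₗ[ℚ] ℚ :=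
  LinearMap.mk₂ ℚ B h.add_left h.smul_left h.add_right h.smul_right

theorem transfersOver_of {K : Subfield ℂ} {g : ℕ} {Z : Matrix (Fin g) (Fin g) ℂ}
    (h : ∀ (v : ℕ) (V : Coh v), IsOfCMType V ∨ HasFiltrationOver K V → ∀ n, Pool.Agent.T6.H21.MP.Repro (perPow Z n) V) :
    TransfersOver K Z := by
  intro v V hV n B χ alg algX hχ hobj
  have h0 : Pool.Agent.T6.H21.MP.IsEuler (perPow Z n) hχ.bilinear.lin hχ.bilinearX.lin := hχ.product
  obtain ⟨h1, h2⟩ := (h v V hV n).objects hobj.hodge hobj.box hobj.hom _ _ h0
  exact ⟨h1, h2, (h v V hV n).homNum hobj.hodge hobj.box hobj.hom _ _ h0⟩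

/-- Let `Z` be a period matrix of size `g` such that `D` of its entries are algebraically independent over the field `K` of
complex numbers. Then the abelian variety `A` with period matrix `Z` is isogenous to the product of the abelian varieties
`A₁`, `A₂` with period matrices `Z₁`, `Z₂` of sizes `b`, `r`, where `r ≤ ρ` for all `ρ` such that `g² / 4` and
`((ρ + 1)² / 2 + (g - ρ - 1) (g - ρ)) / 2` are less than `D`, and `r = 0` if `D > g (g - 1) / 2`. For all smooth proper dg
categories `𝒜` of CM type or with noncommutative Hodge filtration over `K(Z₂)` and all `n`: `K_0(perf(A₁^n) ⊗ 𝒜)_ℚ` modulo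
homological equivalence and its numerically trivial classes are generated by products, and the noncommutative standard
conjectures D for `perf(A₁^n) ⊗ 𝒜` and for `𝒜` are equivalent. If `r = 0`, then this is true for `A` itself and all `𝒜` of CM
type or with noncommutative Hodge filtration over `K`. -/
theorem result {g : ℕ} (Z : Matrix (Fin g) (Fin g) ℂ) (hZ : IsPeriodMatrix Z) (K : Subfield ℂ) {D : ℕ}
    (p : Fin D → Fin g × Fin g) (hp : AlgebraicIndependent K fun s => Z (p s).1 (p s).2) :
    ∃ (b r : ℕ) (Z₁ : Matrix (Fin b) (Fin b) ℂ) (Z₂ : Matrix (Fin r) (Fin r) ℂ), IsSplitting D Z Z₁ Z₂ ∧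
      TransfersOver (periodField K Z₂) Z₁ ∧ (r = 0 → TransfersOver K Z) := by
  obtain ⟨b, r, Z₁, Z₂, h1, h2, h3, h4, h5, h6, h7⟩ :=
    Pool.Agent.T6.H21.MP.repro_periods Z hZ.1 hZ.2 K p hp
  exact ⟨b, r, Z₁, Z₂, ⟨h1, h2, h3, h4, h5, fun hD => Pool.Agent.T6.H21.MP.zero_of_small h5 hD⟩, transfersOver_of h6,
    fun hr => transfersOver_of (h7 hr)⟩

end Pool.Agent.Results.MP_28af06_ag.IndependentPeriods
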