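import Pool.Agent.T6.H21.MP.Fam

/-!
# The noncommutative standard conjecture D for `perf(A) ⊗ 𝒜`, for the very general members `A` of families of abelian varieties
with a square zero operator of general rank and ARBITRARY smooth proper dg categories `𝒜` over `ℂ`

Let `A i` be finitely many families of principally polarised abelian varieties, not constant, given by holomorphic families
`Z i` of period matrices over the connected open set `U` of `ℂ` (for instance the universal covering of a curve), and suppose
that each of them is good (`IsGoodFamily`): it satisfies one of the following conditions.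

1. The very general member is simple, more than half of its endomorphisms are symmetric for the Rosati involution (that is, its
   endomorphism algebra is of type I or II in the classification of Albert) and some rational rank `r` is different from `0`,
   `g / 2` and `g`, and `(g, r)` is not exceptional, or there is another rational rank. A rational rank is the rank of `γ - 1`
   for a monodromy operator `γ` with `(γ - 1)² = 0`, that is the dimension of the toric part of the fibre of the Néron model at
   a semistable degeneration, or the rank of any rational square zero element of the Lie algebra generated by the Hodge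
   operators. The pair is exceptional if `2 g = e C(4j+2, 2j+1)` and `r = e C(4j, 2j)` for some `e` and some `j ≥ 1`, for
   instance `(10, 6)`, `(126, 70)`.
2. All endomorphisms are rational numbers, some rank `r` of the family is different from `0`, `g / 2` and `g`, and `(g, r)` is
   not exceptional with `e = 1` or there is another rank, and `2 g` does not divide the product of two of the ranks. Here a rank
   of the family is the rank of the Kodaira–Spencer map at one point, of the difference of two period matrices, of the image of
   a period matrix under a derivation of the complex numbers, or of any square zero element of the Lie algebra generated by the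
   Hodge operators.
3. The very general member is simple and some rank of the family is odd, or is two and the centre of the endomorphism algebra is
   totally real.

Let `K` be an arbitrary countable field of complex numbers. We prove: for all `t` in `U` outside of a countable set, all products
`A` of the members `A i t` (any number of factors, repetitions allowed) and **all** smooth proper dg categories `𝒜` over `ℂ` whose
noncommutative motive is a direct summand of that of a smooth proper variety, such that the noncommutative Hodge filtration of `𝒜`
is over `K` or `𝒜` is of CM type (`Transfers`):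

* `K_0(perf(A) ⊗ 𝒜)_ℚ` modulo homological equivalence is the span of the products of products of divisor classes on `A` and
  elements of `K_0(𝒜)_ℚ`;
* the same for the numerically trivial classes;
* **the noncommutative standard conjecture D for `perf(A) ⊗ 𝒜` is equivalent to the one for `𝒜`**. No case of the Hodge conjecture
  or of the standard conjectures is assumed for `𝒜`. For instance D is true for `perf(A) ⊗ 𝒜` for all components `𝒜` of
  `D^perf(Y)`, `dim Y ≤ 4`, with periods in `K` (D is true for `Y` by Lieberman; but the standard conjecture B for `Y`, which
  would imply D for `A × Y`, is not known).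

Of `𝒜` we use the rational topological K-theory `K^top_0(𝒜)_ℚ ⊕ K^top_1(𝒜)_ℚ = ℚ^v` and the Hodge operator `V.z` on its
complexification (periodic cyclic homology), the multiplication by `δ` on the Hochschild homology group `HH_δ(𝒜)`; together they
are `V : Coh v`, with `V.dg b = 0` or `1` if the basis vector `b` is in `K^top_0` or `K^top_1`. Moreover there is the Euler form
`B`. The noncommutative Hodge filtration `⨁_{m ≥ n} HH_m(𝒜)` is over `K` (`HasFiltrationOver`) if its steps are spanned by vectors
with coordinates in `K` in the rational basis: the periods of `𝒜` are in `K`. For each `𝒜` (and for countably many `𝒜`) this is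
true for a suitable countable `K`, for instance for all `𝒜` over the algebraic closure of a finitely generated field at the same
time. And `𝒜` is of CM type (`IsOfCMType`) if the Hodge operator commutes with its conjugates. Let `alg` be the image of
`K_0(𝒜)_ℚ`, that is `K_0(𝒜)_ℚ` modulo homological equivalence. The numerically trivial classes are the elements of the kernel of
`B` on `alg` (`IsNumTrivial`), and the noncommutative standard conjecture D for `𝒜` says that they are zero.

The topological K-theory of `perf(A) ⊗ 𝒜` is the space `HAZ W v` of the alternating forms of all degrees on the rational homology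
`W` of `A` with values in `ℚ^v`, and `IsHodgeOnProduct` says that a class is in `HH_0`: it extends to a real multilinear form on
the tangent space with values in `ℂ^v` which is killed by the sum of the Hodge operators of `A` and `𝒜`. The Euler form `χ` is
given on products by the one of `𝒜` and the integral over `A` (`IsEulerForm`). The properties of the classes of objects that are
used are in `IsObjectClasses`: they are Hodge classes (in `HH_0`), products of objects are objects, and for objects `v` of
`perf(A)` and `t` of `perf(A) ⊗ 𝒜` the object `RHom(v, t)` is in `𝒜`.

The proof: by a classification free argument with Jordan pairs (`Pool/Agent/Y91`) the Lie algebras generated by the Hodge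
operators of the very general `A i t` are symplectic over the complex numbers on each irreducible piece. Derivations of the
complex numbers over `K` move the periods of the `A i t` and preserve the noncommutative Hodge filtration of `𝒜`, hence the Hodge
structures of `A` and `𝒜` are independent and Hodge classes are sums of products; the coefficients of a class of an object are
found by integration against products of divisor classes, on which the intersection pairing is perfect.
-/

set_option autoImplicit false

namespace Pool.Agent.Results.MP_28af06_ag.MonodromyFamilies

open Module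
open Pool.Agent.W437.HP (perFam)
open Pool.Agent.TH131.GHC (Coh HAZ cross)
open Pool.Agent.TH504.VY (divisorSpan IsHodgeOnProduct fibreIntegral)
open Pool.Agent.X311 (HasFiltrationOver IsOfCMType)
open Pool.Agent.Y91.Sharp (IsGoodFamily)

section

variable {W T : Type} [AddCommGroup W] [Module ℚ W] [AddCommGroup T] [Module ℂ T]

/-- `B` is a bilinear form. -/
structure IsBilinear {M : Type} [AddCommGroup M] [Module ℚ M] (B : M → M → ℚ) : Prop where
  add_left : ∀ x y z, B (x + y) z = B x z + B y z
  smul_left : ∀ (a : ℚ) (x z : M), B (a • x) z = a * B x z
  add_right : ∀ x y z, B x (y + z) = B x y + B x z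
  smul_right : ∀ (a : ℚ) (x z : M), B x (a • z) = a * B x z

/-- `χ` is the Euler form of `perf(A) ⊗ 𝒜`, for the homology `W` of `A` and the Euler form `B` of `𝒜`: for a product `β` of
divisor classes on `A` and a class `y` of `𝒜` the number `χ(F, β ⊗ y)` is up to sign `B(∫ F ∧ β, y)`, the integral over `A`. The
integral is up to a factor `c ≠ 0` (which depends on `k`, `j` and the basis `e` of `W`, and also includes the sign) the value
`fibreIntegral e F β` of `F ∧ β` on `e`. -/
structure IsEulerForm (per : W →+ T) {v : ℕ} (B : (Fin v → ℚ) → (Fin v → ℚ) → ℚ) (χ : HAZ W v → HAZ W v → ℚ) : Prop where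
  bilinear : IsBilinear B
  bilinearX : IsBilinear χ
  product : ∀ (k j : ℕ) (e : Basis (Fin k ⊕ Fin j) ℚ W), ∃ c : ℚ, c ≠ 0 ∧
    ∀ F : HAZ W v, ∀ β ∈ divisorSpan per j, ∀ y : Fin v → ℚ, χ F (cross β y) = c * B (fibreIntegral e F β) y

/-- `alg` and `algX` are the spans of the classes of the objects of `𝒜` and of `perf(A) ⊗ 𝒜` (`K_0` with rational coefficients
modulo homological equivalence): classes of objects are Hodge classes; the products of products of divisor classes on `A` and
classes of objects of `𝒜` are in `algX`; for a product `β` of divisor classes on `A` and an object `F` of `perf(A) ⊗ 𝒜` the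
class `∫ F ∧ β` is in `alg` (for `β` the Mukai vector of `v^∨` it is the class of `RHom(v, F)`). -/
structure IsObjectClasses (per : W →+ T) {v : ℕ} (V : Coh v) (alg : Submodule ℚ (Fin v → ℚ))
    (algX : Submodule ℚ (HAZ W v)) : Prop where
  hodge : ∀ F ∈ algX, IsHodgeOnProduct per V F
  box : ∀ k, ∀ f ∈ divisorSpan per k, ∀ x ∈ alg, cross f x ∈ algX
  hom : ∀ F ∈ algX, ∀ (k j : ℕ) (e : Basis (Fin k ⊕ Fin j) ℚ W), ∀ β ∈ divisorSpan per j, fibreIntegral e F β ∈ alg

/-- The span of the products `f ⊗ x` of combinations `f` of products of divisor classes on `A` and elements `x` of `M`. -/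
def Tensors (per : W →+ T) {v : ℕ} (M : Set (Fin v → ℚ)) : Submodule ℚ (HAZ W v) :=
  Submodule.span ℚ {G | ∃ (k : ℕ) (f : W [⋀^Fin k]→ₗ[ℚ] ℚ) (x : Fin v → ℚ), f ∈ divisorSpan per k ∧ x ∈ M ∧ G = cross f x}

/-- `x` is a numerically trivial class: it is an element of `alg` in the kernel of the Euler form. -/
def IsNumTrivial {M : Type} [AddCommGroup M] [Module ℚ M] (B : M → M → ℚ) (alg : Submodule ℚ M) (x : M) : Prop :=
  x ∈ alg ∧ ∀ y ∈ alg, B x y = 0

/-- Modulo homological equivalence `K_0(perf(A) ⊗ 𝒜)_ℚ` is the span of the products of products of divisor classes and
elements of `K_0(𝒜)_ℚ`, the same for the numerically trivial classes, and the noncommutative standard conjecture D for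
`perf(A) ⊗ 𝒜` is equivalent to the noncommutative standard conjecture D for `𝒜`. -/
structure Transfers (per : W →+ T) {v : ℕ} (B : (Fin v → ℚ) → (Fin v → ℚ) → ℚ) (χ : HAZ W v → HAZ W v → ℚ)
    (alg : Submodule ℚ (Fin v → ℚ)) (algX : Submodule ℚ (HAZ W v)) : Prop where
  objects : algX = Tensors per (alg : Set (Fin v → ℚ))
  trivial : ∀ F, IsNumTrivial χ algX F ↔ F ∈ Tensors per {x | IsNumTrivial B alg x}
  D : (∀ F, IsNumTrivial χ algX F → F = 0) ↔ ∀ x, IsNumTrivial B alg x → x = 0

/-- `Transfers` holds for all Euler forms and classes of objects of `𝒜` and `perf(A) ⊗ 𝒜`. -/
def AlwaysTransfers (per : W →+ T) {v : ℕ} (V : Coh v) : Prop :=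
  ∀ B χ alg algX, IsEulerForm per B χ → IsObjectClasses per V alg algX → Transfers per B χ alg algX

end

/-- a bilinear form as a linear map -/
def IsBilinear.lin {M : Type} [AddCommGroup M] [Module ℚ M] {B : M → M → ℚ} (h : IsBilinear B) : M →ₗ[ℚ] M →ₗ[ℚ] ℚ :=
  LinearMap.mk₂ ℚ B h.add_left h.smul_left h.add_right h.smul_right

/-- Let `Z i` be finitely many good families over the connected open set `U`, not constant, and `K` a countable field of complex
numbers. For all `t` in `U` outside of a countable set, all smooth proper dg categories `𝒜` of CM type or with noncommutative
Hodge filtration over `K`, and all products `A` of abelian varieties `ℂ ^ g / (ℤ ^ g + Z(t) ℤ ^ g)`, `Z` one of the `Z i`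
(repetitions allowed): modulo homological equivalence `K_0(perf(A) ⊗ 𝒜)_ℚ` and its numerically trivial classes are generated by
products, and the noncommutative standard conjectures D for `perf(A) ⊗ 𝒜` and for `𝒜` are equivalent. -/
theorem result {ι : Type} [Fintype ι] {U : Set ℂ} (hU : IsOpen U) (hc : IsPreconnected U)
    {g : ι → ℕ} (Z : ∀ i, ℂ → Matrix (Fin (g i)) (Fin (g i)) ℂ)
    (h : ∀ i, IsGoodFamily U (Z i)) (hnc : ∀ i, ∃ s ∈ U, ∃ t ∈ U, Z i s ≠ Z i t)
    (K : Subfield ℂ) (hK : (K : Set ℂ).Countable) :
    ∃ E : Set ℂ, E.Countable ∧ ∀ t ∈ U, t ∉ E → ∀ (v : ℕ) (V : Coh v), IsOfCMType V ∨ HasFiltrationOver K V →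
      ∀ (m : ℕ) (c : Fin m → ι), AlwaysTransfers (perFam (fun i => Z i t) c) V := by
  obtain ⟨E, hE, hEt⟩ := Pool.Agent.T6.H21.MP.exists_repro hU hc Z h hnc K hK
  refine ⟨E, hE, fun t ht htE v V hV m c B χ alg algX hχ hobj => ?_⟩
  have h0 : Pool.Agent.T6.H21.MP.IsEuler (perFam (fun i => Z i t) c) hχ.bilinear.lin hχ.bilinearX.lin := hχ.product
  obtain ⟨h1, h2⟩ := (hEt t ht htE v V hV m c).objects hobj.hodge hobj.box hobj.hom _ _ h0
  exact ⟨h1, h2, (hEt t ht htE v V hV m c).homNum hobj.hodge hobj.box hobj.hom _ _ h0⟩

end Pool.Agent.Results.MP_28af06_ag.MonodromyFamilies
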