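import Pool.Agent.R937.PZ.Mot
import Pool.Agent.T6.H22.NCD.Thms

/-!
# The noncommutative standard conjecture of type D for dg categories generated by abelian varieties of
# dimension at most five, and by products of elliptic curves, abelian surfaces and non-ordinary threefolds,
# over finite fields

An abelian variety over the field with `p ^ a` elements is modelled by `RedAV` (Honda, Tate): a
finite product of CM types `(E i, Φ i)` with Weil numbers `π i ∈ E i` that satisfy the formula of
Shimura and Taniyama; its cohomology of degree `n`, with coefficients in an algebraically closed field
`Ω`, consists of the alternating `n`-forms on the Tate module `Ω ⊗ H_1`, on which the Frobenius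
endomorphism acts by `π`.

We consider (`IsGoodAVP`) the abelian varieties `Y` of the following kinds:

* all abelian varieties of dimension at most five;
* the abelian varieties that are isogenous, over an algebraic closure, to a product of a supersingular
  abelian variety of any dimension and of abelian varieties of dimension at most three (any number, any
  multiplicity), such that any two factors of dimension three whose CM fields have the same Galois
  closure satisfy one of the following: their fields are Galois over `ℚ`; one of them is supersingular;
  they are isogenous; neither of them is ordinary and their `p`-ranks are not `{1, 2}`.

`Homology Ω V` are data of motivic homology `M X n j = H_n^M(X, ℚ(j)) = CH_j(X, n - 2 j) ⊗ ℚ` (higher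
Chow groups) and of `ℓ`-adic homology `E X n j = H_n(X, ℚ_ℓ(j))` of schemes `X : V` of finite type over
finite fields, with the Frobenius and the regulator. Let `𝒢` (`Generated`) be the smallest class of
schemes that contains those with the homology groups of the abelian varieties above, that is closed
under direct summands of finite sums of twists of motives, and that contains all of a closed subscheme
`Z` of `X`, `X` and `X ∖ Z` if it contains two of them. For example, it contains all products of curves
of genus at most two, the symmetric powers of such products, the Hilbert schemes of points on products
of two such curves, the varieties dominated by an abelian variety of dimension at most five whose motive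
is a direct summand, and the blow-ups and projective bundles of such varieties along each other.

`KZeroTheory V 𝒟` are data of the Grothendieck groups `K_0(A)` of smooth proper dg categories `A : 𝒟`
over a finite field, with the Euler pairings `χ`, the groups `TP_+(A)_{1/p}` (even topological periodic
cyclic homology with `p` inverted) and the cyclotomic traces `K_0(A) → TP_+(A)_{1/p}`, and of the dg
categories `perf_dg(X)`. We use (`IsKZeroTheory`) that the pairings and the traces are additive, that
`TP_+(A)_{1/p}` is a vector space over `ℚ` and that homologically trivial classes are numerically
trivial; and for smooth projective `X` (`IsRiemannRoch`) Poincaré duality, the Chern character and the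
theorem of Hirzebruch and Riemann-Roch `χ (x, y) = ∫ ch (x^∨) ch (y) td (X)`.

Let `𝒩` (`KZeroGenerated`) be the smallest class of dg categories that contains the categories
`perf_dg(X)` for all smooth projective `X` in `𝒢`, and all dg categories whose noncommutative motives
with rational coefficients are direct summands of finite sums of motives of members of `𝒩`: there are
bimodules with their adjoints which induce a map that is injective up to torsion from `K_0(A)` to the
sum of the Grothendieck groups of the members (`IsKZeroSummand`). The class `𝒩` contains, for instance,
with such an `X`, the dg categories of the perfect complexes over sheaves of Azumaya algebras on `X`,
all dg categories with semiorthogonal decompositions into members of `𝒩` (root stacks, blow-ups,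
finite-dimensional algebras of finite global dimension over the finite field), and all components of
semiorthogonal decompositions of members, which in general are not of the form `perf_dg(Y)`.

**Theorem.** For all `A` in `𝒩` the noncommutative standard conjecture of type D is true: a class in
`K_0(A)` is homologically trivial if and only if it is numerically trivial. Moreover these classes are
exactly the torsion elements of `K_0(A)` (`AllEquivalencesCoincide`), so that
`K_0(A)_ℚ = K_0(A)_ℚ/hom = K_0(A)_ℚ/num`.

Properties of the theory of cycles that are used for the abelian varieties `Y` (`IsChowS`,
`IsMotivic`): Poincaré duality, the formal properties of correspondences, the nilpotence of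
homologically trivial correspondences (Kimura), the operation of the Frobenius endomorphism on higher
Chow groups, the vanishing of the higher rational `K`-groups of a finite field (Quillen), and the
algebraicity of the classes in `AlgS` (theorems of Tate, Markman and Ramón Marí). All Tate classes on
all powers of `Y` are in `AlgS`: this is `Pool.Agent.R937.PG.main` (in `Pool/Agent/R937/PZ`), and the
passage from the Tate conjecture to all degrees and to the class `𝒢` (Soulé, Geisser, Kahn, Jannsen) is
`Pool.Agent.W495.FM`; both are in the starting files, as is the perfectness of the intersection
pairings (`Pool.Agent.X303.TBDual.perfect`).
-/

set_option autoImplicit false

namespace Pool.Agent.Results.MP_28af06_ag.SmallAbelianGenerated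

open Pool.Agent.W495.TA Pool.Agent.W495.FM Pool.Agent.R937.PG Pool.Agent.T6.H22.NCD

/-- The noncommutative standard conjecture of type D (and the coincidence of numerical and rational
equivalence) for the dg categories generated by the smooth projective members of the class generated by
the abelian varieties of dimension at most five and by the products of elliptic curves, abelian surfaces
and non-ordinary threefolds over finite fields. -/
theorem result (p : ℕ) [Fact p.Prime] (ν : PadicAlgCl p ≃+* ℂ) (Ω : Type) [Field Ω]
    [IsAlgClosed Ω] [CharZero Ω] (V : Type) (T : Homology Ω V) (hT : IsHomology T) (𝒟 : Type)
    (N : KZeroTheory V 𝒟) (hN : IsKZeroTheory N) (A : 𝒟)
    (hA : KZeroGenerated N (fun X => Generated T (IsGoodAbelianP p ν T) X ∧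
      IsRiemannRoch N T X) A) :
    AllEquivalencesCoincide N A :=
  coincide_generated hN hT (fun _ h => ⟨tb_goodP hT h.1, h.2⟩) hA

end Pool.Agent.Results.MP_28af06_ag.SmallAbelianGenerated
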